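import Pool.Agent.W207.SW.SpecS

/-!
# SW-EXT: the gap for band-limited test functions
-/

set_option autoImplicit false

open Filter Topology Set MeasureTheory
open scoped BigOperators Convolution

namespace Pool.Agent.W179.SW

open W207.PR (ct dt)
open W207.SW

theorem hcs_of {q : ℝ → ℝ} {μ : ℝ} (hs : ∀ x, μ ≤ |x| → q x = 0) : HasCompactSupport q := by
  refine HasCompactSupport.intro (isCompact_Icc (a := -μ) (b := μ)) ?_
  intro x hx
  apply hs
  by_contra h
  push Not at h
  exact hx (abs_le.1 h.le)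

theorem int_of {q : ℝ → ℝ} {μ : ℝ} (hq : Continuous q) (hs : ∀ x, μ ≤ |x| → q x = 0) :
    Integrable q := hq.integrable_of_hasCompactSupport (hcs_of hs)

/-- the derivative of the cosine transform -/
theorem hasDerivAt_ct {q : ℝ → ℝ} {μ : ℝ} (hq : Continuous q) (hs : ∀ x, μ ≤ |x| → q x = 0)
    (x : ℝ) : HasDerivAt (ct q) (dt q x) x := by
  have h := hasDerivAt_integral_of_dominated_loc_of_deriv_le (μ := volume) (x₀ := x) (s := univ)
    (F := fun x α => q α * Real.cos (2 * Real.pi * α * x))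
    (F' := fun x α => -((2 * Real.pi * α * q α) * Real.sin (2 * Real.pi * α * x)))
    (bound := fun α => |2 * Real.pi * α * q α|) univ_mem ?_ ?_ ?_ ?_ ?_ ?_
  · have h2 := h.2
    rw [integral_neg] at h2
    exact h2
  · refine Filter.Eventually.of_forall fun y => Continuous.aestronglyMeasurable ?_
    fun_prop
  · refine int_of (μ := μ) (by fun_prop) fun y hy => by rw [hs y hy, zero_mul]
  · refine Continuous.aestronglyMeasurable ?_
    fun_prop
  · refine Filter.Eventually.of_forall fun α y _ => ?_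
    rw [norm_neg, Real.norm_eq_abs, abs_mul]
    exact mul_le_of_le_one_right (abs_nonneg _) (Real.abs_sin_le_one _)
  · refine int_of (μ := μ) (by fun_prop) fun y hy => by rw [hs y hy, mul_zero, abs_zero]
  · refine Filter.Eventually.of_forall fun α y _ => ?_
    have h1 : HasDerivAt (fun y : ℝ => 2 * Real.pi * α * y) (2 * Real.pi * α) y := by
      simpa using (hasDerivAt_id y).const_mul (2 * Real.pi * α)
    have h2 := (h1.cos).const_mul (q α)
    have h3 : q α * (-Real.sin (2 * Real.pi * α * y) * (2 * Real.pi * α)) =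
        -((2 * Real.pi * α * q α) * Real.sin (2 * Real.pi * α * y)) := by ring
    rw [h3] at h2
    exact h2

/-- for even functions the sine transform vanishes -/
theorem sin_zero {q : ℝ → ℝ} (he : ∀ x, q (-x) = q x) (u : ℝ) :
    ∫ α : ℝ, q α * Real.sin (2 * Real.pi * α * u) = 0 := by
  have h := integral_neg_eq_self (fun α : ℝ => q α * Real.sin (2 * Real.pi * α * u)) volume
  have h2 : ∀ α : ℝ, q (-α) * Real.sin (2 * Real.pi * (-α) * u) =
      -(q α * Real.sin (2 * Real.pi * α * u)) := by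
    intro α
    rw [he α]
    have : 2 * Real.pi * (-α) * u = -(2 * Real.pi * α * u) := by ring
    rw [this, Real.sin_neg]
    ring
  simp only [h2] at h
  rw [integral_neg] at h
  linarith

/-- the exponential transform -/
theorem exp_int {q : ℝ → ℝ} {μ : ℝ} (hq : Continuous q) (hs : ∀ x, μ ≤ |x| → q x = 0)
    (he : ∀ x, q (-x) = q x) (u : ℝ) :
    ∫ α : ℝ, (q α : ℂ) * Complex.exp (((2 * Real.pi * α * u : ℝ) : ℂ) * Complex.I) =
      ((ct q u : ℝ) : ℂ) := by
  have h1 : ∀ α : ℝ, (q α : ℂ) * Complex.exp (((2 * Real.pi * α * u : ℝ) : ℂ) * Complex.I) =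
      ((q α * Real.cos (2 * Real.pi * α * u) : ℝ) : ℂ) +
        ((q α * Real.sin (2 * Real.pi * α * u) : ℝ) : ℂ) * Complex.I := by
    intro α
    rw [Complex.exp_mul_I, ← Complex.ofReal_cos, ← Complex.ofReal_sin]
    push_cast
    ring
  simp only [h1]
  have i1 : Integrable (fun α : ℝ => q α * Real.cos (2 * Real.pi * α * u)) :=
    int_of (μ := μ) (by fun_prop) fun y hy => by rw [hs y hy, zero_mul]
  have i2 : Integrable (fun α : ℝ => q α * Real.sin (2 * Real.pi * α * u)) :=
    int_of (μ := μ) (by fun_prop) fun y hy => by rw [hs y hy, zero_mul]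
  rw [integral_add i1.ofReal (i2.ofReal.mul_const _), integral_mul_const, integral_complex_ofReal,
    integral_complex_ofReal, sin_zero he]
  simp only [Complex.ofReal_zero, zero_mul, add_zero]
  rfl

/-- a smooth kernel -/
theorem exists_chi (e : ℝ) (he : 0 < e) : ∃ χ : ℝ → ℝ, (∀ n : ℕ, ContDiff ℝ n χ) ∧
    (∀ x, χ (-x) = χ x) ∧ (∀ x, 0 ≤ χ x) ∧ (∀ x, e ≤ |x| → χ x = 0) ∧ ∫ x, χ x = 1 := by
  let φ : ContDiffBump (0 : ℝ) := ⟨e / 2, e, by positivity, by linarith⟩
  refine ⟨φ.normed volume, fun n => ?_, fun x => φ.normed_neg x, fun x => φ.nonneg_normed x,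
    fun x hx => ?_, φ.integral_normed⟩
  · have := φ.contDiff_normed (μ := volume) (n := (n : ℕ∞))
    exact_mod_cast this
  · by_contra h
    have h1 : x ∈ Function.support (φ.normed volume) := h
    rw [φ.support_normed_eq, Metric.mem_ball, dist_zero_right, Real.norm_eq_abs] at h1
    exact absurd h1 (not_lt.2 hx)

/-- the mollified function -/
noncomputable def mol (p χ : ℝ → ℝ) (x : ℝ) : ℝ := ∫ t : ℝ, p t * χ (x - t)

theorem mol_eq (p χ : ℝ → ℝ) : mol p χ = p ⋆[ContinuousLinearMap.mul ℝ ℝ, volume] χ := rfl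

theorem mol_supp {p χ : ℝ → ℝ} {a e : ℝ} (hp : ∀ x, a ≤ |x| → p x = 0)
    (hχ : ∀ x, e ≤ |x| → χ x = 0) (x : ℝ) (hx : a + e ≤ |x|) : mol p χ x = 0 := by
  unfold mol
  have : ∀ t, p t * χ (x - t) = 0 := by
    intro t
    by_cases ht : a ≤ |t|
    · rw [hp t ht, zero_mul]
    · rw [hχ (x - t), mul_zero]
      push Not at ht
      have := abs_sub_abs_le_abs_sub x t
      linarith
  simp only [this, integral_zero]

theorem mol_even {p χ : ℝ → ℝ} (hp : ∀ x, p (-x) = p x) (hχ : ∀ x, χ (-x) = χ x) (x : ℝ) :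
    mol p χ (-x) = mol p χ x := by
  unfold mol
  rw [← integral_neg_eq_self (fun t : ℝ => p t * χ (-x - t)) volume]
  refine integral_congr_ae (Filter.Eventually.of_forall fun t => ?_)
  simp only
  rw [hp, show -x - -t = -(x - t) by ring, hχ]

theorem mol_smooth {p χ : ℝ → ℝ} {a e : ℝ} (hpc : Continuous p) (hp : ∀ x, a ≤ |x| → p x = 0)
    (hχc : ∀ n : ℕ, ContDiff ℝ n χ) (hχ : ∀ x, e ≤ |x| → χ x = 0) (n : ℕ) :
    ContDiff ℝ n (mol p χ) := by
  rw [mol_eq]
  have := (hcs_of hχ).contDiff_convolution_right (n := (n : ℕ∞)) (ContinuousLinearMap.mul ℝ ℝ)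
    (μ := volume) ((int_of hpc hp).locallyIntegrable) (by exact_mod_cast hχc n)
  exact_mod_cast this

theorem mol_ct {p χ : ℝ → ℝ} {a e : ℝ} (hpc : Continuous p) (hp : ∀ x, a ≤ |x| → p x = 0)
    (hpe : ∀ x, p (-x) = p x) (hχc : ∀ n : ℕ, ContDiff ℝ n χ) (hχ : ∀ x, e ≤ |x| → χ x = 0)
    (hχe : ∀ x, χ (-x) = χ x) (u : ℝ) : ct (mol p χ) u = ct p u * ct χ u := by
  have hχ0 : Continuous χ := (hχc 0).continuous
  have hm : Continuous (mol p χ) := (mol_smooth hpc hp hχc hχ 0).continuous
  have e1 := exp_int hm (mol_supp hp hχ) (mol_even hpe hχe) u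
  have e2 := exp_int hpc hp hpe u
  have e3 := exp_int hχ0 hχ hχe u
  have i2 : Integrable (fun α : ℝ => (p α : ℂ) *
      Complex.exp (((2 * Real.pi * α * u : ℝ) : ℂ) * Complex.I)) := by
    refine (int_of hpc hp).norm.mono' ?_ ?_
    · refine Continuous.aestronglyMeasurable ?_
      fun_prop
    · refine Filter.Eventually.of_forall fun α => ?_
      rw [norm_mul, Complex.norm_exp_ofReal_mul_I, mul_one, Complex.norm_real]
  have i3 : Integrable (fun α : ℝ => (χ α : ℂ) *
      Complex.exp (((2 * Real.pi * α * u : ℝ) : ℂ) * Complex.I)) := by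
    refine (int_of hχ0 hχ).norm.mono' ?_ ?_
    · refine Continuous.aestronglyMeasurable ?_
      fun_prop
    · refine Filter.Eventually.of_forall fun α => ?_
      rw [norm_mul, Complex.norm_exp_ofReal_mul_I, mul_one, Complex.norm_real]
  have h := integral_convolution (ContinuousLinearMap.mul ℝ ℂ) (μ := volume) (ν := volume) i2 i3
  rw [e2, e3] at h
  have h1 : ∀ x : ℝ, ((fun α : ℝ => (p α : ℂ) *
      Complex.exp (((2 * Real.pi * α * u : ℝ) : ℂ) * Complex.I)) ⋆[ContinuousLinearMap.mul ℝ ℂ,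
        volume] (fun α : ℝ => (χ α : ℂ) *
      Complex.exp (((2 * Real.pi * α * u : ℝ) : ℂ) * Complex.I))) x =
      (mol p χ x : ℂ) * Complex.exp (((2 * Real.pi * x * u : ℝ) : ℂ) * Complex.I) := by
    intro x
    rw [convolution_def]
    unfold mol
    rw [← integral_complex_ofReal, ← integral_mul_const]
    refine integral_congr_ae (Filter.Eventually.of_forall fun t => ?_)
    simp only [ContinuousLinearMap.mul_apply']
    have h2 : Complex.exp (((2 * Real.pi * x * u : ℝ) : ℂ) * Complex.I) =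
        Complex.exp (((2 * Real.pi * t * u : ℝ) : ℂ) * Complex.I) *
          Complex.exp (((2 * Real.pi * (x - t) * u : ℝ) : ℂ) * Complex.I) := by
      rw [← Complex.exp_add]
      congr 1
      push_cast
      ring
    rw [h2]
    push_cast
    ring
  simp only [h1] at h
  rw [e1] at h
  simp only [ContinuousLinearMap.mul_apply'] at h
  exact_mod_cast h

theorem abs_ct_le {χ : ℝ → ℝ} (h0 : ∀ x, 0 ≤ χ x) (h1 : ∫ x, χ x = 1)
    (hi : Integrable χ) (u : ℝ) : |ct χ u| ≤ 1 := by
  unfold ct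
  rw [← Real.norm_eq_abs, ← h1]
  refine norm_integral_le_of_norm_le hi (Filter.Eventually.of_forall fun α => ?_)
  rw [norm_mul, Real.norm_of_nonneg (h0 α), Real.norm_eq_abs]
  exact mul_le_of_le_one_right (h0 α) (Real.abs_cos_le_one _)

theorem ct_sub_one {χ : ℝ → ℝ} {e : ℝ} (hc : Continuous χ)
    (hs : ∀ x, e ≤ |x| → χ x = 0) (h0 : ∀ x, 0 ≤ χ x) (h1 : ∫ x, χ x = 1)
    (u : ℝ) : |ct χ u - 1| ≤ 2 * Real.pi * e * |u| := by
  have hi : Integrable χ := int_of hc hs
  have hi2 : Integrable (fun α : ℝ => χ α * Real.cos (2 * Real.pi * α * u)) :=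
    int_of (μ := e) (by fun_prop) fun y hy => by rw [hs y hy, zero_mul]
  unfold ct
  rw [← h1, ← integral_sub hi2 hi, ← Real.norm_eq_abs]
  have : 2 * Real.pi * e * |u| = ∫ x, χ x * (2 * Real.pi * e * |u|) := by
    rw [integral_mul_const, h1, one_mul]
  rw [this]
  refine norm_integral_le_of_norm_le (hi.mul_const _) (Filter.Eventually.of_forall fun α => ?_)
  have e1 : χ α * Real.cos (2 * Real.pi * α * u) - χ α =
      χ α * (Real.cos (2 * Real.pi * α * u) - 1) := by ring
  rw [e1, norm_mul, Real.norm_of_nonneg (h0 α), Real.norm_eq_abs]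
  by_cases hα : e ≤ |α|
  · rw [hs α hα, zero_mul, zero_mul]
  · push Not at hα
    apply mul_le_mul_of_nonneg_left _ (h0 α)
    have h2 : |Real.cos (2 * Real.pi * α * u) - 1| ≤ |2 * Real.pi * α * u| := by
      have h3 := Real.abs_cos_sub_cos_le (2 * Real.pi * α * u) 0
      rw [Real.cos_zero, sub_zero] at h3
      exact h3
    refine h2.trans ?_
    rw [abs_mul, abs_mul, abs_of_nonneg (by positivity : (0 : ℝ) ≤ 2 * Real.pi)]
    gcongr

theorem abs_dt_le {χ : ℝ → ℝ} {e : ℝ} (hc : Continuous χ)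
    (hs : ∀ x, e ≤ |x| → χ x = 0) (h0 : ∀ x, 0 ≤ χ x) (h1 : ∫ x, χ x = 1)
    (u : ℝ) : |dt χ u| ≤ 2 * Real.pi * e := by
  have hi : Integrable χ := int_of hc hs
  unfold dt
  rw [abs_neg, ← Real.norm_eq_abs]
  have : 2 * Real.pi * e = ∫ x, χ x * (2 * Real.pi * e) := by
    rw [integral_mul_const, h1, one_mul]
  rw [this]
  refine norm_integral_le_of_norm_le (hi.mul_const _) (Filter.Eventually.of_forall fun α => ?_)
  rw [norm_mul, norm_mul, Real.norm_of_nonneg (h0 α), Real.norm_eq_abs, Real.norm_eq_abs]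
  by_cases hα : e ≤ |α|
  · rw [hs α hα, mul_zero, zero_mul, zero_mul]
  · push Not at hα
    rw [abs_mul, abs_of_nonneg (by positivity : (0 : ℝ) ≤ 2 * Real.pi)]
    calc 2 * Real.pi * |α| * χ α * |Real.sin (2 * Real.pi * α * u)|
        ≤ 2 * Real.pi * |α| * χ α * 1 := by
          have := h0 α
          gcongr
          exact Real.abs_sin_le_one _
      _ ≤ 2 * Real.pi * e * χ α * 1 := by
          have := h0 α
          gcongr
      _ = _ := by ring

/-- integrability of the dominating function -/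
theorem dom_int (C : ℝ) : IntegrableOn (fun u : ℝ => C / (1 + u) ^ 2) (Ioi 0) := by
  have h1 : IntegrableOn (fun u : ℝ => (1 + u ^ 2)⁻¹) (Ioi 0) :=
    integrable_inv_one_add_sq.integrableOn
  have h2 : IntegrableOn (fun u : ℝ => |C| * (1 + u ^ 2)⁻¹) (Ioi 0) := h1.const_mul _
  refine Integrable.mono' h2 ?_ ?_
  · refine ContinuousOn.aestronglyMeasurable ?_ measurableSet_Ioi
    refine ContinuousOn.div continuousOn_const (by fun_prop) fun u hu => ?_
    have : (0 : ℝ) < u := hu
    positivity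
  · refine (ae_restrict_iff' measurableSet_Ioi).2 (Filter.Eventually.of_forall fun u hu => ?_)
    have hu' : (0 : ℝ) < u := hu
    rw [norm_div, Real.norm_eq_abs, Real.norm_of_nonneg (by positivity : (0 : ℝ) ≤ (1 + u) ^ 2),
      div_eq_mul_inv]
    apply mul_le_mul_of_nonneg_left _ (abs_nonneg C)
    apply inv_anti₀ (by positivity)
    nlinarith

theorem ext : S_EXT := by
  intro O h h' C0 Λ a K hO hG ha haΛ hBL hder hh' hb
  obtain ⟨p, hpc, hpe, hps, hp⟩ := hBL
  obtain ⟨hOm, hOb⟩ := hO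
  have hhct : h = ct p := funext hp
  -- the kernels
  obtain ⟨e0, he0, he0'⟩ : ∃ e0 : ℝ, 0 < e0 ∧ a + e0 < Λ := ⟨(Λ - a) / 2, by linarith, by linarith⟩
  have hex : ∀ n : ℕ, ∃ χ : ℝ → ℝ, (∀ k : ℕ, ContDiff ℝ k χ) ∧ (∀ x, χ (-x) = χ x) ∧
      (∀ x, 0 ≤ χ x) ∧ (∀ x, e0 / (n + 1) ≤ |x| → χ x = 0) ∧ ∫ x, χ x = 1 :=
    fun n => exists_chi _ (by positivity)
  choose χ hχc hχe hχ0 hχs hχ1 using hex
  have hen : ∀ n : ℕ, 0 < e0 / ((n : ℝ) + 1) := fun n => by positivity
  have hen' : ∀ n : ℕ, e0 / ((n : ℝ) + 1) ≤ e0 := fun n =>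
    div_le_self he0.le (by linarith [(Nat.cast_nonneg n : (0 : ℝ) ≤ n)])
  have hcont : ∀ n, Continuous (χ n) := fun n => (hχc n 0).continuous
  have hint : ∀ n, Integrable (χ n) := fun n => int_of (hcont n) (hχs n)
  have hTst : ∀ n, TstL Λ (mol p (χ n)) := by
    intro n
    refine ⟨mol_smooth hpc hps (hχc n) (hχs n), mol_even hpe (hχe n), a + e0 / ((n : ℝ) + 1), ?_,
      ?_, mol_supp hps (hχs n)⟩
    · have := hen n; linarith
    · have := hen' n; linarith
  -- the derivative
  have hdt : ∀ n u, dt (mol p (χ n)) u = h' u * ct (χ n) u + h u * dt (χ n) u := by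
    intro n u
    have h1 := hasDerivAt_ct (mol_smooth hpc hps (hχc n) (hχs n) 0).continuous
      (mol_supp hps (hχs n)) u
    have h2 : ct (mol p (χ n)) = fun u => h u * ct (χ n) u := by
      funext u
      rw [mol_ct hpc hps hpe (hχc n) (hχs n) (hχe n), hhct]
    have h3 := (hder u).mul (hasDerivAt_ct (hcont n) (hχs n) u)
    rw [h2] at h1
    exact h1.unique h3
  have hzero : ∀ n, ∫ u in Ioi (0 : ℝ), dt (mol p (χ n)) u * O u = 0 := fun n => hG _ (hTst n)
  -- measurability
  have hmeas : ∀ n, Measurable (dt (mol p (χ n))) := by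
    intro n
    have h1 : dt (mol p (χ n)) = deriv (ct (mol p (χ n))) := by
      funext u
      exact (hasDerivAt_ct (mol_smooth hpc hps (hχc n) (hχs n) 0).continuous
        (mol_supp hps (hχs n)) u).deriv.symm
    rw [h1]
    exact measurable_deriv _
  have hK : 0 ≤ K := by
    have := (hb 0).1
    have h2 := abs_nonneg (h 0)
    simp only [abs_zero, add_zero, one_pow, div_one] at this
    linarith
  -- convergence
  have hlim : Tendsto (fun n => ∫ u in Ioi (0 : ℝ), dt (mol p (χ n)) u * O u) atTop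
      (𝓝 (∫ u in Ioi (0 : ℝ), h' u * O u)) := by
    refine tendsto_integral_of_dominated_convergence
      (fun u => (K * (1 + 2 * Real.pi * e0) * |C0|) / (1 + u) ^ 2) ?_ (dom_int _) ?_ ?_
    · intro n
      exact ((hmeas n).mul hOm).aestronglyMeasurable
    · intro n
      have hpos : ∀ᵐ u ∂(volume.restrict (Ioi (0 : ℝ))), u ∈ Ioi (0 : ℝ) :=
        ae_restrict_mem measurableSet_Ioi
      filter_upwards [hOb, hpos] with u hu hu0
      have hu0' : (0 : ℝ) < u := hu0
      rw [norm_mul, Real.norm_eq_abs, Real.norm_eq_abs]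
      have b1 : |dt (mol p (χ n)) u| ≤ K * (1 + 2 * Real.pi * e0) / (1 + u) ^ 3 := by
        rw [hdt]
        have c1 := abs_ct_le (hχ0 n) (hχ1 n) (hint n) u
        have c2 := abs_dt_le (hcont n) (hχs n) (hχ0 n) (hχ1 n) u
        have c3 : |dt (χ n) u| ≤ 2 * Real.pi * e0 := by
          refine c2.trans ?_
          have := hen' n
          gcongr
        obtain ⟨d1, d2⟩ := hb u
        rw [abs_of_pos hu0'] at d1 d2
        calc |h' u * ct (χ n) u + h u * dt (χ n) u|
            ≤ |h' u| * |ct (χ n) u| + |h u| * |dt (χ n) u| := by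
              rw [← abs_mul, ← abs_mul]; exact abs_add_le _ _
          _ ≤ K / (1 + u) ^ 3 * 1 + K / (1 + u) ^ 3 * (2 * Real.pi * e0) := by
              gcongr
          _ = _ := by ring
      have b2 : |O u| ≤ |C0| * (1 + u) := by
        refine hu.trans ?_
        exact mul_le_mul_of_nonneg_right (le_abs_self C0) (by linarith)
      calc |dt (mol p (χ n)) u| * |O u|
          ≤ K * (1 + 2 * Real.pi * e0) / (1 + u) ^ 3 * (|C0| * (1 + u)) := by
            gcongr
        _ = _ := by
            field_simp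
    · refine Filter.Eventually.of_forall fun u => ?_
      have h1 : Tendsto (fun n => dt (mol p (χ n)) u) atTop (𝓝 (h' u)) := by
        rw [tendsto_iff_norm_sub_tendsto_zero]
        have h2 : Tendsto (fun n : ℕ => (|h' u| * |u| + |h u|) * (2 * Real.pi * e0) *
            (1 / ((n : ℝ) + 1))) atTop (𝓝 0) := by
          have := (tendsto_one_div_add_atTop_nhds_zero_nat (𝕜 := ℝ)).const_mul
            ((|h' u| * |u| + |h u|) * (2 * Real.pi * e0))
          rwa [mul_zero] at this
        refine squeeze_zero (fun n => norm_nonneg _) (fun n => ?_) h2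
        rw [hdt, Real.norm_eq_abs]
        have c1 := ct_sub_one (hcont n) (hχs n) (hχ0 n) (hχ1 n) u
        have c2 := abs_dt_le (hcont n) (hχs n) (hχ0 n) (hχ1 n) u
        have e1 : h' u * ct (χ n) u + h u * dt (χ n) u - h' u =
            h' u * (ct (χ n) u - 1) + h u * dt (χ n) u := by ring
        rw [e1]
        calc |h' u * (ct (χ n) u - 1) + h u * dt (χ n) u|
            ≤ |h' u| * |ct (χ n) u - 1| + |h u| * |dt (χ n) u| := by
              rw [← abs_mul, ← abs_mul]; exact abs_add_le _ _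
          _ ≤ |h' u| * (2 * Real.pi * (e0 / ((n : ℝ) + 1)) * |u|) +
              |h u| * (2 * Real.pi * (e0 / ((n : ℝ) + 1))) := by
              gcongr
          _ = _ := by
              field_simp
      exact h1.mul_const _
  simp only [hzero] at hlim
  exact (tendsto_nhds_unique hlim tendsto_const_nhds)

end Pool.Agent.W179.SW
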